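import Mathlib

namespace Pool.Agent.Results.MP_b8636a_al.Counter

open scoped Pointwise MatrixGroups

/-- The positive root unipotent `x_α(ξ)` of `SL_2(R)`, the simply connected Chevalley group of
type `A_1`. -/
def xp {R : Type} [CommRing R] (ξ : R) : SL(2, R) := ⟨!![1, ξ; 0, 1], by simp [Matrix.det_fin_two]⟩

/-- The negative root unipotent `x_{-α}(ξ)`. -/
def xm {R : Type} [CommRing R] (ξ : R) : SL(2, R) := ⟨!![1, 0; ξ, 1], by simp [Matrix.det_fin_two]⟩

/-- `U`, generated by the positive root unipotents. -/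
def Up (R : Type) [CommRing R] : Set SL(2, R) := Subgroup.closure (Set.range (xp (R := R)))

/-- `U⁻`, generated by the negative root unipotents. -/
def Um (R : Type) [CommRing R] : Set SL(2, R) := Subgroup.closure (Set.range (xm (R := R)))

theorem xp_mul (a b : ℤ) : xp a * xp b = xp (a + b) := by
  ext i j; fin_cases i <;> fin_cases j <;> simp [xp, Matrix.mul_apply, Fin.sum_univ_two, add_comm]

theorem xm_mul (a b : ℤ) : xm a * xm b = xm (a + b) := by
  ext i j; fin_cases i <;> fin_cases j <;> simp [xm, Matrix.mul_apply, Fin.sum_univ_two]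

theorem xp_zero : xp (0 : ℤ) = 1 := by
  ext i j; fin_cases i <;> fin_cases j <;> simp [xp]

theorem xm_zero : xm (0 : ℤ) = 1 := by
  ext i j; fin_cases i <;> fin_cases j <;> simp [xm]

theorem mem_Up {g : SL(2, ℤ)} (h : g ∈ Up ℤ) : ∃ a, g = xp a := by
  induction h using Subgroup.closure_induction with
  | mem x hx => obtain ⟨a, rfl⟩ := hx; exact ⟨a, rfl⟩
  | one => exact ⟨0, xp_zero.symm⟩
  | mul x y _ _ hx hy =>
    obtain ⟨a, rfl⟩ := hx
    obtain ⟨b, rfl⟩ := hy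
    exact ⟨a + b, xp_mul a b⟩
  | inv x _ hx =>
    obtain ⟨a, rfl⟩ := hx
    exact ⟨-a, inv_eq_of_mul_eq_one_right (by rw [xp_mul, add_neg_cancel, xp_zero])⟩

theorem mem_Um {g : SL(2, ℤ)} (h : g ∈ Um ℤ) : ∃ a, g = xm a := by
  induction h using Subgroup.closure_induction with
  | mem x hx => obtain ⟨a, rfl⟩ := hx; exact ⟨a, rfl⟩
  | one => exact ⟨0, xm_zero.symm⟩
  | mul x y _ _ hx hy =>
    obtain ⟨a, rfl⟩ := hx
    obtain ⟨b, rfl⟩ := hy
    exact ⟨a + b, xm_mul a b⟩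
  | inv x _ hx =>
    obtain ⟨a, rfl⟩ := hx
    exact ⟨-a, inv_eq_of_mul_eq_one_right (by rw [xm_mul, add_neg_cancel, xm_zero])⟩

theorem dioph (x s y t : ℤ) (h1 : t + s * (1 + t * y) = 21) (h2 : x * 21 + (1 + t * y) = 8) :
    False := by
  obtain ⟨D, hD⟩ : ∃ D, D = 1 + t * y := ⟨_, rfl⟩
  rw [← hD] at h1 h2
  have hd : t ∣ D - 1 := ⟨y, by rw [hD]; ring⟩
  have small : ∀ m : ℤ, m ≠ 0 → t ∣ m → -|m| ≤ t ∧ t ≤ |m| := fun m hm h =>
    abs_le.1 (Int.le_of_dvd (abs_pos.2 hm) ((abs_dvd_abs _ _).2 h))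
  have hb := small _ (by omega) hd
  rcases (show s = 0 ∨ s = 1 ∨ s = -1 ∨ 2 ≤ s ∨ s ≤ -2 by omega) with h | h | h | h | h
  · subst h
    have ht : t = 21 := by omega
    subst ht
    omega
  · subst h
    have h3 : t ∣ 20 := by
      have : (20 : ℤ) = (D - 1) + t := by omega
      rw [this]; exact dvd_add hd dvd_rfl
    have h4 := small _ (by norm_num) h3
    norm_num at h4
    have : t = 13 ∨ t = -8 := by omega
    rcases this with rfl | rfl <;> norm_num at h3
  · subst h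
    have h3 : t ∣ 22 := by
      have : (22 : ℤ) = t - (D - 1) := by omega
      rw [this]; exact dvd_sub dvd_rfl hd
    have h4 := small _ (by norm_num) h3
    norm_num at h4
    have : t = -13 ∨ t = 8 := by omega
    rcases this with rfl | rfl <;> norm_num at h3
  all_goals
    have hD2 : D = 8 ∨ D = -13 := by
      rcases le_or_gt 29 D with h5 | h5
      · rw [abs_of_nonneg (by omega)] at hb; nlinarith [hb.1, hb.2]
      · rcases le_or_gt D (-34) with h6 | h6
        · rw [abs_of_nonpos (by omega)] at hb; nlinarith [hb.1, hb.2]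
        · omega
    rcases hD2 with rfl | rfl
    · norm_num at hb hd
      obtain ⟨h5, h6⟩ := hb
      interval_cases t <;> omega
    · norm_num at hb hd
      obtain ⟨h5, h6⟩ := hb
      interval_cases t <;> omega

theorem result : Um ℤ * Up ℤ * Um ℤ * Up ℤ * Um ℤ ≠ Up ℤ * Um ℤ * Up ℤ * Um ℤ * Up ℤ := by
  intro h
  have hp : ∀ a : ℤ, xp a ∈ Up ℤ := fun a => Subgroup.subset_closure ⟨a, rfl⟩
  have hm : ∀ a : ℤ, xm a ∈ Um ℤ := fun a => Subgroup.subset_closure ⟨a, rfl⟩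
  have h1 : xp 1 * xm 1 * xp (-2) * xm (-2) * xp 3 ∈ Up ℤ * Um ℤ * Up ℤ * Um ℤ * Up ℤ :=
    Set.mul_mem_mul (Set.mul_mem_mul (Set.mul_mem_mul (Set.mul_mem_mul (hp _) (hm _)) (hp _))
      (hm _)) (hp _)
  rw [← h] at h1
  obtain ⟨_, ⟨_, ⟨_, ⟨a, ha, b, hb, rfl⟩, c, hc, rfl⟩, d, hd, rfl⟩, e, he, h2⟩ := h1
  obtain ⟨x, rfl⟩ := mem_Um ha
  obtain ⟨s, rfl⟩ := mem_Up hb
  obtain ⟨y, rfl⟩ := mem_Um hc
  obtain ⟨t, rfl⟩ := mem_Up hd
  obtain ⟨z, rfl⟩ := mem_Um he
  have e1 := congrArg (fun g : SL(2, ℤ) => g 0 1) h2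
  have e2 := congrArg (fun g : SL(2, ℤ) => g 1 1) h2
  simp [xp, xm, Matrix.mul_apply, Fin.sum_univ_two] at e1 e2
  exact dioph x s y t (by linear_combination e1) (by linear_combination e2 - x * e1)

end Pool.Agent.Results.MP_b8636a_al.Counter
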